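import Pool.Agent.helper56.NR.Spec

set_option autoImplicit false

open Complex Metric Set Filter Topology MeasureTheory Pool.Agent.helper98.ILF

open EX (ff)

noncomputable section

namespace NR

theorem CON_anti {n : ℕ} {c : ℂ} {N : ℕ} {mm : ℕ → ℕ} {l l' : ℕ → ℝ} {G g : ℕ → ℂ → ℂ}
    (hC : Chn n c N mm l l' G g) (j : ℕ) : ∀ d : ℕ, j + d ≤ N → mm (j + d) ≤ mm j := by
  intro d
  induction d with
  | zero => intro _; exact le_refl _
  | succ d ih =>
    intro h
    have h1 := ih (by omega)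
    have h2 := hC.lt (j + d) (by omega)
    have h3 : j + (d + 1) = j + d + 1 := by omega
    rw [h3]
    omega

theorem CON_tri {n : ℕ} {c : ℂ} {N : ℕ} {mm : ℕ → ℕ} {l l' : ℕ → ℝ} {G g : ℕ → ℂ → ℂ}
    (hC : Chn n c N mm l l' G g) (j : ℕ) : ∀ d : ℕ, j + d ≤ N →
    ‖vv n c (mm j) - vv n c (mm (j + d))‖ ≤ ∑ m ∈ Finset.Ico j (j + d), l m := by
  intro d
  induction d with
  | zero => intro _; simp
  | succ d ih =>
    intro h
    have h1 := ih (by omega)
    have h2 := hC.dist (j + d) (by omega)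
    have h3 : j + (d + 1) = j + d + 1 := by omega
    rw [h3, Finset.sum_Ico_succ_top (by omega : j ≤ j + d)]
    have h4 : vv n c (mm j) - vv n c (mm (j + d + 1)) =
        (vv n c (mm j) - vv n c (mm (j + d))) - (vv n c (mm (j + d + 1)) - vv n c (mm (j + d))) := by ring
    rw [h4]
    calc _ ≤ ‖vv n c (mm j) - vv n c (mm (j + d))‖ + ‖vv n c (mm (j + d + 1)) - vv n c (mm (j + d))‖ := norm_sub_le _ _
      _ ≤ _ := by rw [h2]; linarith

theorem CON_Ioo (l : ℕ → ℝ) (i k : ℕ) : ∑ m ∈ Finset.Ico (i + 1) k, l m = ∑ m ∈ Finset.Ioo i k, l m := by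
  apply Finset.sum_congr _ (fun _ _ => rfl)
  ext x
  simp only [Finset.mem_Ico, Finset.mem_Ioo]
  omega

theorem CON (hBRU : BRU_stmt) : CON_stmt := by
  intro n c N mm l l' G g hC i k hik hkN hsum
  have hmono : ∀ j, i + 1 ≤ j → j ≤ k → ∑ m ∈ Finset.Ico j k, l m ≤ ∑ m ∈ Finset.Ioo i k, l m := by
    intro j hj hjk
    rw [← CON_Ioo]
    apply Finset.sum_le_sum_of_subset_of_nonneg
    · intro x hx
      rw [Finset.mem_Ico] at hx ⊢
      omega
    · intro x hx _
      rw [Finset.mem_Ico] at hx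
      exact (hC.pos x (by omega)).le
  have htri : ∀ j, i + 1 ≤ j → j ≤ k → ‖vv n c (mm j) - vv n c (mm k)‖ ≤ ∑ m ∈ Finset.Ioo i k, l m := by
    intro j hj hjk
    have h1 := CON_tri hC j (k - j) (by omega)
    have h2 : j + (k - j) = k := by omega
    rw [h2] at h1
    exact h1.trans (hmono j hj hjk)
  have hlk : 0 < l k := hC.pos k hkN
  refine ⟨htri (i + 1) le_rfl hik, ?_⟩
  have hA : ∀ d j : ℕ, i ≤ j → j + d + 1 = k →
      ∀ w ∈ ball (vv n c (mm j)) (l j) ∩ ball (vv n c (mm k)) (l k), (ff n c)^[mm j - mm k] (G j w) = G k w := by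
    intro d
    induction d with
    | zero =>
      intro j hij hjk w hw
      have hk1 : j + 1 = k := by omega
      subst hk1
      have h1 := hC.co j (by omega) w hw.1
      rw [h1]
      have hp1 : vv n c (mm (j + 1)) ∈ ball (vv n c (mm j)) (l' j) := by
        rw [mem_ball, dist_eq_norm, hC.dist j (by omega)]
        exact hC.lt' j (by omega)
      have hp2 : vv n c (mm (j + 1)) ∈ ball (vv n c (mm (j + 1))) (l (j + 1)) := mem_ball_self hlk
      have h2 := hBRU n c (mm (j + 1)) _ _ _ _ _ _ _ (hC.br' j (by omega)) (hC.br (j + 1) hkN) hp1 hp2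
        (by rw [hC.ce' j (by omega), hC.ce (j + 1) hkN])
      exact h2 ⟨ball_subset_ball (hC.lt' j (by omega)).le hw.1, hw.2⟩
    | succ d ih =>
      intro j hij hjk w hw
      have hIH := ih (j + 1) (by omega) (by omega)
      have hjN : j < N := by omega
      have hj1N : j + 1 < N := by omega
      have hm1 : mm k ≤ mm (j + 1) := by
        have := CON_anti hC (j + 1) (k - (j + 1)) (by omega)
        rwa [show j + 1 + (k - (j + 1)) = k by omega] at this
      have hm2 : mm (j + 1) < mm j := hC.lt j hjN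
      have hp1 : vv n c (mm (j + 1)) ∈ ball (vv n c (mm j)) (l' j) := by
        rw [mem_ball, dist_eq_norm, hC.dist j hjN]
        exact hC.lt' j hjN
      have hp2 : vv n c (mm (j + 1)) ∈ ball (vv n c (mm k)) (l k) := by
        rw [mem_ball, dist_eq_norm]
        have := htri (j + 1) (by omega) (by omega)
        linarith
      have hval : (ff n c)^[mm (j + 1) - mm k] (g j (vv n c (mm (j + 1)))) = G k (vv n c (mm (j + 1))) := by
        rw [hC.ce' j hjN]
        have h3 := hIH (vv n c (mm (j + 1))) ⟨mem_ball_self (hC.pos (j + 1) hj1N), hp2⟩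
        rw [hC.ce (j + 1) hj1N] at h3
        exact h3
      have h2 := hBRU n c (mm k) _ _ _ _ _ _ _ ((hC.br' j hjN).comp hm1) (hC.br k hkN) hp1 hp2 hval
      have h4 := h2 ⟨ball_subset_ball (hC.lt' j hjN).le hw.1, hw.2⟩
      have h5 : mm j - mm k = (mm (j + 1) - mm k) + (mm j - mm (j + 1)) := by omega
      rw [h5, Function.iterate_add_apply, hC.co j hjN w hw.1]
      exact h4
  exact hA (k - i - 1) i le_rfl (by omega)

end NR
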