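import Pool.Agent.helper84.NR.Spec

/-!
# Project NRV, row ARI (arithmetic)
-/

set_option autoImplicit false

namespace Pool.Agent.helper84.NR

open scoped Classical
open Finset

theorem ARI : ARI_stmt := by
  intro F Y v e Q N P d h1 h2 h3 h4 hd
  obtain ⟨a, ha⟩ : ∃ a : ℤ, a = d - ∑ k ∈ Y, P k := ⟨_, rfl⟩
  have hN : ∀ j ∈ Y, N j ≤ a + P j := by
    intro j hj
    have g1 := h3 j hj
    have g2 : P j + ∑ k ∈ Y.erase j, P k = ∑ k ∈ Y, P k := add_sum_erase Y P hj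
    omega
  have hne : ∃ j ∈ Y, Q j ≠ 0 := by
    by_contra hcon
    push Not at hcon
    have : ∑ j ∈ Y, Q j = 0 := sum_eq_zero hcon
    omega
  have ha0 : 0 ≤ a := by
    obtain ⟨j, hj, -⟩ := hne
    have g1 := hN j hj
    obtain ⟨-, -, g2, -, -⟩ := h1 j hj
    omega
  obtain ⟨J, hJ⟩ : ∃ J : Finset F, J = Y.filter (fun j => Q j ≠ 0) := ⟨_, rfl⟩
  have memJ : ∀ j, j ∈ J ↔ j ∈ Y ∧ Q j ≠ 0 := by
    intro j; rw [hJ, mem_filter]
  have hn : (1 : ℤ) ≤ (#J : ℤ) := by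
    obtain ⟨j, hj, hq⟩ := hne
    have : 0 < #J := card_pos.2 ⟨j, (memJ j).2 ⟨hj, hq⟩⟩
    omega
  have hβ : ∑ j ∈ J, (Q j - P j) = a := by
    have g1 : ∑ j ∈ J, (Q j - P j) = ∑ j ∈ Y, (Q j - P j) := by
      apply sum_subset
      · intro j hj; exact ((memJ j).1 hj).1
      · intro j hj hj2
        have hq : Q j = 0 := by
          by_contra hq
          exact hj2 ((memJ j).2 ⟨hj, hq⟩)
        obtain ⟨-, -, -, g3, -⟩ := h1 j hj
        rw [hq, g3 hq]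
        ring
    rw [g1, sum_sub_distrib, h4, ha]
  have hlow : a + #J ≤ ∑ j ∈ J, (v j - e j - 1) := by
    have g1 : ∑ j ∈ J, ((Q j - P j) + 1) = a + #J := by
      rw [sum_add_distrib, hβ, sum_const, nsmul_eq_mul, mul_one]
    rw [← g1]
    apply sum_le_sum
    intro j hj
    obtain ⟨hj1, hj2⟩ := (memJ j).1 hj
    obtain ⟨-, -, -, -, g5⟩ := h1 j hj1
    have g6 := h2 j hj1 hj2
    omega
  have hup : 2 * a + 2 * #J ≤ #J * a := by
    have g1 : ∑ j ∈ J, (2 * (Q j - P j) + 2) = 2 * a + 2 * #J := by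
      rw [sum_add_distrib, ← mul_sum, hβ, sum_const, nsmul_eq_mul]
      ring
    have g2 : ∑ j ∈ J, (2 * (Q j - P j) + 2) ≤ ∑ _j ∈ J, a := by
      apply sum_le_sum
      intro j hj
      obtain ⟨hj1, hj2⟩ := (memJ j).1 hj
      have g3 := hN j hj1
      have g4 := h2 j hj1 hj2
      omega
    rw [g1, sum_const, nsmul_eq_mul] at g2
    exact g2
  rw [← hJ]
  have h8 : 8 ≤ a + #J := by
    obtain ⟨n, hn'⟩ : ∃ n : ℤ, n = (#J : ℤ) := ⟨_, rfl⟩
    rw [← hn'] at hup hn ⊢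
    by_contra hcon
    push Not at hcon
    have k1 : 4 * (n * a) ≤ (a + n) ^ 2 := by nlinarith [sq_nonneg (a - n)]
    have k2 : 8 * (a + n) ≤ (a + n) ^ 2 := by linarith
    nlinarith
  omega

end Pool.Agent.helper84.NR
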