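import Pool.Agent.helper24.NR.Spec

set_option autoImplicit false

namespace Pool.Agent.NR

open Finset

theorem CFG (hCYA : CYA_stmt) (hCYB : CYB_stmt) : CFG_stmt := by
  intro V F _ _ M
  refine
    { ends := fun f u v h => (hCYA V (M.bd f) (M.isCycle f) (M.three_le f)).1 u v h
      deg2 := fun f v hv => (hCYA V (M.bd f) (M.isCycle f) (M.three_le f)).2.1 v hv
      card_eq := fun f => (hCYA V (M.bd f) (M.isCycle f) (M.three_le f)).2.2
      three := M.three_le
      tri := fun f u v w h1 h2 h3 h4 h5 h6 => hCYB V (M.bd f) (M.isCycle f) (M.three_le f) u v w h1 h2 h3 h4 h5 h6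
      two := M.two
      covered := M.covered
      link := M.link
      meet3 := ?_
      meet2 := ?_ }
  · intro f g hfg u v w huv hvw huw u1 v1 w1 u2 v2 w2
    rcases M.meet f g hfg with h | ⟨a, h⟩ | ⟨a, b, -, -, -, h⟩
    · exact h u ⟨u1, u2⟩
    · exact huv (((h u).1 ⟨u1, u2⟩).trans ((h v).1 ⟨v1, v2⟩).symm)
    · rcases (h u).1 ⟨u1, u2⟩ with e1 | e1 <;> rcases (h v).1 ⟨v1, v2⟩ with e2 | e2 <;>
        rcases (h w).1 ⟨w1, w2⟩ with e3 | e3
      · exact huv (e1.trans e2.symm)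
      · exact huv (e1.trans e2.symm)
      · exact huw (e1.trans e3.symm)
      · exact hvw (e2.trans e3.symm)
      · exact hvw (e2.trans e3.symm)
      · exact huw (e1.trans e3.symm)
      · exact huv (e1.trans e2.symm)
      · exact huv (e1.trans e2.symm)
  · intro f g hfg u v huv u1 v1 u2 v2
    rcases M.meet f g hfg with h | ⟨a, h⟩ | ⟨a, b, -, hf, -, h⟩
    · exact absurd ⟨u1, u2⟩ (h u)
    · exact absurd (((h u).1 ⟨u1, u2⟩).trans ((h v).1 ⟨v1, v2⟩).symm) huv
    · rcases (h u).1 ⟨u1, u2⟩ with e1 | e1 <;> rcases (h v).1 ⟨v1, v2⟩ with e2 | e2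
      · exact absurd (e1.trans e2.symm) huv
      · rw [e1, e2]; exact hf
      · rw [e1, e2, Sym2.eq_swap]; exact hf
      · exact absurd (e1.trans e2.symm) huv

end Pool.Agent.NR
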